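import Pool.Agent.K1H72.OP.Stm
import Pool.Agent.TH825.Nahm.Jtp
import Pool.Agent.TH825.Nahm.Euler
import Pool.Agent.TH825.Nahm.Gate

/-! OP-6 (helper92): Jacobi's triple product at `z = 3`. -/

set_option autoImplicit false

namespace Pool.Agent.K1H92.OP

open Pool.Agent.TH825.Nahm
open Complex

theorem jtp : Pool.Agent.TH825.Nahm.S_JTP :=
  Pool.Agent.TH825.Nahm.Jtp.main Pool.Agent.TH825.Nahm.Euler.main
    (Pool.Agent.TH825.Nahm.Gate.main Pool.Agent.TH825.Nahm.Qpm.main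
      Pool.Agent.TH825.Nahm.Euler.main)

theorem t_JTP : K1H72.OP.S_JTP := by
  intro q hq0 hq1
  set ε : ℂ := -Complex.log q with hε
  have hq : cexp (-ε) = q := by
    rw [hε, neg_neg, Complex.exp_log hq0]
  have hre : 0 < ε.re := by
    rw [hε, Complex.neg_re, Complex.log_re, neg_pos]
    exact Real.log_neg (norm_pos_iff.2 hq0) hq1
  have hpow : ∀ n : ℕ, q ^ n = cexp (-(ε * n)) := fun n => by
    rw [← hq, ← Complex.exp_nat_mul]
    congr 1
    ring
  have hz : (3 : ℂ) * cexp (-(ε / 2)) ≠ 0 := mul_ne_zero three_ne_zero (Complex.exp_ne_zero _)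
  have h := jtp (3 * cexp (-(ε / 2))) ε hre hz
  have h1 : QP (-(3 * cexp (-(ε / 2)))) (1 / 2) ε = ∏' j : ℕ, (1 + 3 * q ^ (j + 1)) := by
    unfold QP
    refine tprod_congr fun n => ?_
    rw [neg_mul, sub_neg_eq_add, mul_assoc, ← Complex.exp_add, hpow]
    congr 3
    push_cast
    ring
  have h2 : QP (-(3 * cexp (-(ε / 2)))⁻¹) (1 / 2) ε = K1H72.OP.R0 q := by
    unfold QP K1H72.OP.R0
    refine tprod_congr fun n => ?_
    have h5 : ε / 2 + -(ε * ((n : ℂ) + ((1 / 2 : ℝ) : ℂ))) = -(ε * n) := by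
      push_cast
      ring
    rw [neg_mul, sub_neg_eq_add, mul_inv, ← Complex.exp_neg, neg_neg, mul_assoc,
      ← Complex.exp_add, h5, hpow]
    ring
  have h3 : QP 1 1 ε = ∏' j : ℕ, (1 - q ^ (j + 1)) := by
    unfold QP
    refine tprod_congr fun n => ?_
    rw [one_mul, hpow]
    congr 3
    push_cast
    ring
  have h4 : ∑' k : ℤ, (3 * cexp (-(ε / 2))) ^ k * cexp (-(ε * ((k : ℂ) ^ 2 / 2))) =
      K1H72.OP.Th q := by
    unfold K1H72.OP.Th
    refine tsum_congr fun k => ?_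
    have hk : (((k * (k + 1) / 2 : ℤ)) : ℂ) = (k : ℂ) * (k + 1) / 2 := by
      have h5 : 2 * (k * (k + 1) / 2) = k * (k + 1) :=
        Int.mul_ediv_cancel' (Int.even_mul_succ_self k).two_dvd
      have h6 : (2 : ℂ) * ((k * (k + 1) / 2 : ℤ) : ℂ) = (k : ℂ) * (k + 1) := by exact_mod_cast h5
      rw [← h6]
      ring
    have h7 : q ^ (k * (k + 1) / 2) = cexp (-(ε * ((k : ℂ) * (k + 1) / 2))) := by
      rw [← hq, ← Complex.exp_int_mul, hk]
      congr 1
      ring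
    rw [mul_zpow, ← Complex.exp_int_mul, mul_assoc, ← Complex.exp_add, h7]
    congr 2
    ring
  rw [h1, h2, h3, h4] at h
  rw [← h]
  ring

end Pool.Agent.K1H92.OP
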